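import Mathlib

set_option autoImplicit false

namespace Pool.Agent.P.MP_28bf3c_nt

/-- y is normal in base b; the n-th digit of y is the floor of y b^n reduced mod b -/
def NormalInBase (b : ℕ) (y : ℝ) : Prop :=
  ∀ k : ℕ, 1 ≤ k → ∀ w : Fin k → Fin b,
    Filter.Tendsto
      (fun N : ℕ => (((Finset.Icc 1 N).filter fun n : ℕ =>
        ∀ i : Fin k, ⌊y * (b : ℝ) ^ (n + i.val)⌋ % (b : ℤ) = ((w i).val : ℤ)).card : ℝ) / (N : ℝ))
      Filter.atTop (nhds (1 / (b : ℝ) ^ k))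

/-- the sum of the products of p_i (1 - p_i) over d distinct positive indices with sum s -/
noncomputable def R (d : ℕ) (p : ℕ → unitInterval) (s : ℕ) : ℝ :=
  ∑ I ∈ ((Finset.Icc 1 s).powersetCard d).filter (fun I => ∑ i ∈ I, i = s),
    ∏ i ∈ I, ((p i : ℝ) * (1 - (p i : ℝ)))

end Pool.Agent.P.MP_28bf3c_nt
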