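import Pool.Agent.P.MP_28bf3c_nt.Defs

set_option autoImplicit false
open Filter Topology Finset

namespace Pool.Agent.P.MP_28bf3c_nt

/-- a long run of zero digits infinitely often rules out normality -/
lemma not_normal_of_gaps {y : ℝ} {B : ℕ → ℕ} (hB : Tendsto B atTop atTop)
    (h : ∀ᶠ m in atTop, ∀ n, 3 * B m < n → n ≤ 5 * B m → ⌊y * (2 : ℝ) ^ n⌋ % 2 = 0) :
    ¬ NormalInBase 2 y := by
  intro H
  have H1 := H 1 le_rfl (fun _ => 0)
  set c : ℕ → ℕ := fun N => ((Finset.Icc 1 N).filter fun n : ℕ => ⌊y * (2 : ℝ) ^ n⌋ % 2 = 0).card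
    with hc
  have H2 : Tendsto (fun N : ℕ => (c N : ℝ) / N) atTop (𝓝 (1 / 2)) := by
    simpa [hc] using H1
  have t3 : Tendsto (fun m => 3 * B m) atTop atTop :=
    tendsto_atTop_mono (fun m => by omega) hB
  have t5 : Tendsto (fun m => 5 * B m) atTop atTop :=
    tendsto_atTop_mono (fun m => by omega) hB
  have l := ((H2.comp t5).const_mul 5).sub ((H2.comp t3).const_mul 3)
  have key : ∀ᶠ m in atTop, (2 : ℝ) ≤ 5 * ((c (5 * B m) : ℝ) / (5 * B m : ℕ))
      - 3 * ((c (3 * B m) : ℝ) / (3 * B m : ℕ)) := by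
    filter_upwards [h, hB.eventually_gt_atTop 0] with m hm hpos
    have h1 : c (3 * B m) + 2 * B m ≤ c (5 * B m) := by
      have hsub : ((Finset.Icc 1 (3 * B m)).filter fun n : ℕ => ⌊y * (2 : ℝ) ^ n⌋ % 2 = 0)
          ∪ Finset.Ioc (3 * B m) (5 * B m)
          ⊆ (Finset.Icc 1 (5 * B m)).filter fun n : ℕ => ⌊y * (2 : ℝ) ^ n⌋ % 2 = 0 := by
        intro n hn
        simp only [mem_union, mem_filter, mem_Icc, mem_Ioc] at hn ⊢
        rcases hn with hn | hn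
        · exact ⟨by omega, hn.2⟩
        · exact ⟨by omega, hm n hn.1 hn.2⟩
      have hdis : Disjoint ((Finset.Icc 1 (3 * B m)).filter
          fun n : ℕ => ⌊y * (2 : ℝ) ^ n⌋ % 2 = 0) (Finset.Ioc (3 * B m) (5 * B m)) := by
        rw [Finset.disjoint_left]
        intro n hn hn2
        simp only [mem_filter, mem_Icc, mem_Ioc] at hn hn2
        omega
      have := card_le_card hsub
      rw [card_union_of_disjoint hdis, Nat.card_Ioc] at this
      simp only [hc]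
      omega
    have h2 : (c (3 * B m) : ℝ) + 2 * B m ≤ c (5 * B m) := by exact_mod_cast h1
    have hB' : (0 : ℝ) < B m := by exact_mod_cast hpos
    have e : 5 * ((c (5 * B m) : ℝ) / (5 * B m : ℕ)) - 3 * ((c (3 * B m) : ℝ) / (3 * B m : ℕ))
        = (c (5 * B m) - c (3 * B m)) / B m := by
      push_cast; field_simp
    rw [e, le_div_iff₀ hB']
    linarith
  have := ge_of_tendsto l key
  norm_num at this

lemma summable_bits {ω : ℕ → ℝ} (hω : ∀ n, ω n = 0 ∨ ω n = 1) :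
    Summable fun n : ℕ => ω (n + 1) / 2 ^ (n + 1) := by
  refine Summable.of_nonneg_of_le (fun n => ?_) (fun n => ?_) summable_geometric_two
  · rcases hω (n + 1) with h | h <;> rw [h] <;> positivity
  · have : ω (n + 1) ≤ 1 := by rcases hω (n + 1) with h | h <;> rw [h] <;> norm_num
    rw [one_div, inv_pow, div_le_iff₀ (by positivity), pow_succ]
    field_simp
    linarith

lemma tail_bounds {ω : ℕ → ℝ} (hω : ∀ n, ω n = 0 ∨ ω n = 1) (M : ℕ) :
    0 ≤ ∑' n : ℕ, ω (n + M + 1) / 2 ^ (n + M + 1) ∧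
      ∑' n : ℕ, ω (n + M + 1) / 2 ^ (n + M + 1) ≤ 1 / 2 ^ M := by
  constructor
  · refine tsum_nonneg fun n => ?_
    rcases hω (n + M + 1) with h | h <;> rw [h] <;> positivity
  · have h1 : HasSum (fun n : ℕ => (1 / 2 ^ M : ℝ) / 2 / 2 ^ n) (1 / 2 ^ M) :=
      hasSum_geometric_two' _
    rw [← h1.tsum_eq]
    refine Summable.tsum_le_tsum (fun n => ?_)
      ((summable_nat_add_iff M).2 (summable_bits hω)) h1.summable
    have : ω (n + M + 1) ≤ 1 := by rcases hω (n + M + 1) with h | h <;> rw [h] <;> norm_num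
    have e : (1 / 2 ^ M : ℝ) / 2 / 2 ^ n = 1 / 2 ^ (n + M + 1) := by
      rw [pow_succ, pow_add]; field_simp
    rw [e]
    gcongr

/-- a gap in the digits of X gives a gap in the digits of X^d -/
lemma digit_zero {ω : ℕ → ℝ} (hω : ∀ n, ω n = 0 ∨ ω n = 1) {d K M n : ℕ}
    (hgap : ∀ i, K < i → i ≤ M → ω i = 0) (h1 : d * K < n) (h2 : n + d ≤ M) :
    ⌊(∑' i : ℕ, ω (i + 1) / 2 ^ (i + 1)) ^ d * (2 : ℝ) ^ n⌋ % 2 = 0 := by
  have hs := summable_bits hω
  set X := ∑' i : ℕ, ω (i + 1) / 2 ^ (i + 1) with hX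
  set Y := ∑ i ∈ range M, ω (i + 1) / 2 ^ (i + 1) with hY
  have hsplit : Y + ∑' i : ℕ, ω (i + M + 1) / 2 ^ (i + M + 1) = X := hs.sum_add_tsum_nat_add M
  obtain ⟨z0, z1⟩ := tail_bounds hω M
  obtain ⟨x0, x1⟩ := tail_bounds hω 0
  simp only [add_zero, pow_zero, div_one, ← hX] at x0 x1
  have y0 : 0 ≤ Y := sum_nonneg fun i _ => by
    rcases hω (i + 1) with h | h <;> rw [h] <;> positivity
  have hYX : Y ≤ X := by linarith
  obtain ⟨k, hk⟩ : ∃ k : ℤ, Y * 2 ^ K = k := by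
    rw [hY, sum_mul]
    refine sum_induction _ (fun x : ℝ => ∃ k : ℤ, x = k) ?_ ⟨0, by simp⟩ ?_
    · rintro _ _ ⟨a, rfl⟩ ⟨b, rfl⟩
      exact ⟨a + b, by push_cast; rfl⟩
    · intro i hi
      rcases hω (i + 1) with h | h
      · exact ⟨0, by simp [h]⟩
      · by_cases hiK : K < i + 1
        · have := hgap (i + 1) hiK (by simpa using hi)
          exact ⟨0, by simp [this]⟩
        · obtain ⟨j, rfl⟩ : ∃ j, K = (i + 1) + j := ⟨K - (i + 1), by omega⟩
          refine ⟨2 ^ j, ?_⟩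
          rw [h, pow_add (2 : ℝ) (i + 1) j]
          push_cast
          field_simp
  have hle : Y ^ d ≤ X ^ d := pow_le_pow_left₀ y0 hYX d
  have hdiff : X ^ d - Y ^ d ≤ d / 2 ^ M := by
    have h3 := abs_pow_sub_pow_le X Y d
    rw [abs_of_nonneg (sub_nonneg.2 hle), abs_of_nonneg (sub_nonneg.2 hYX), abs_of_nonneg x0,
      abs_of_nonneg y0, max_eq_left hYX] at h3
    have h4 : X ^ (d - 1) ≤ 1 := pow_le_one₀ x0 x1
    have h5 : X - Y ≤ 1 / 2 ^ M := by linarith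
    calc X ^ d - Y ^ d ≤ (X - Y) * d * X ^ (d - 1) := h3
      _ ≤ (1 / 2 ^ M) * d * 1 := by gcongr
      _ = d / 2 ^ M := by ring
  obtain ⟨j, rfl⟩ : ∃ j, n = d * K + j + 1 := ⟨n - d * K - 1, by omega⟩
  have hY2 : Y ^ d * 2 ^ (d * K + j + 1) = ((2 * (k ^ d * 2 ^ j) : ℤ) : ℝ) := by
    push_cast
    rw [← hk, mul_pow, ← pow_mul, mul_comm K d]
    ring
  have hsmall : (d : ℝ) / 2 ^ M * 2 ^ (d * K + j + 1) < 1 := by
    rw [div_mul_eq_mul_div, div_lt_one (by positivity)]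
    have h6 : (d : ℝ) < 2 ^ d := by exact_mod_cast Nat.lt_two_pow_self
    calc (d : ℝ) * 2 ^ (d * K + j + 1) < 2 ^ d * 2 ^ (d * K + j + 1) := by gcongr
      _ = 2 ^ (d * K + j + 1 + d) := by ring
      _ ≤ 2 ^ M := pow_le_pow_right₀ (by norm_num) h2
  have hfl : ⌊X ^ d * (2 : ℝ) ^ (d * K + j + 1)⌋ = 2 * (k ^ d * 2 ^ j) := by
    rw [Int.floor_eq_iff, ← hY2]
    have hp : (0 : ℝ) < 2 ^ (d * K + j + 1) := by positivity
    constructor
    · gcongr
    · nlinarith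
  rw [hfl]
  simp

end Pool.Agent.P.MP_28bf3c_nt
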