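import Pool.Agent.P.MP_28bf3c_nt.Digits

set_option autoImplicit false
open Filter Topology Finset MeasureTheory ProbabilityTheory

namespace Pool.Agent.P.MP_28bf3c_nt

noncomputable section

/-- the digit probabilities -/
def pr (L n : ℕ) : ℝ :=
  if n < L ∨ n < 3 * L ^ (Nat.log L n) then 1 / 2 else 1 / (2 * L : ℝ) ^ (Nat.log L n + 1)

lemma pr_le {L : ℕ} (hL : 1 ≤ L) (n : ℕ) : pr L n ≤ 1 / 2 := by
  unfold pr
  split_ifs
  · exact le_rfl
  · have h1 : (1 : ℝ) ≤ L := by exact_mod_cast hL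
    apply one_div_le_one_div_of_le (by norm_num)
    calc (2 : ℝ) ≤ (2 * L : ℝ) ^ 1 := by linarith
      _ ≤ _ := pow_le_pow_right₀ (by linarith) (by omega)

lemma pr_ge {L : ℕ} (hL : 1 ≤ L) {n e : ℕ} (h : Nat.log L n < e) :
    1 / (2 * L : ℝ) ^ e ≤ pr L n := by
  have h1 : (1 : ℝ) ≤ L := by exact_mod_cast hL
  unfold pr
  split_ifs
  · apply one_div_le_one_div_of_le (by norm_num)
    calc (2 : ℝ) ≤ (2 * L : ℝ) ^ 1 := by linarith
      _ ≤ _ := pow_le_pow_right₀ (by linarith) (by omega)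
  · apply one_div_le_one_div_of_le (by positivity)
    exact pow_le_pow_right₀ (by linarith) (by omega)

lemma pr_nonneg (L n : ℕ) : 0 ≤ pr L n := by
  unfold pr
  split_ifs <;> positivity

lemma pr_dense {L a n : ℕ} (hL : 3 ≤ L) (h1 : L ^ a ≤ n) (h2 : n < 3 * L ^ a) : pr L n = 1 / 2 := by
  have : Nat.log L n = a := by
    apply Nat.log_eq_of_pow_le_of_lt_pow h1
    rw [pow_succ]
    nlinarith [Nat.pos_of_ne_zero (pow_ne_zero a (by omega : L ≠ 0))]
  unfold pr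
  rw [if_pos (Or.inr (by rwa [this]))]

lemma pr_small {L n : ℕ} (h : n < L) : pr L n = 1 / 2 := by
  unfold pr
  rw [if_pos (Or.inl h)]

lemma pr_sparse {L a n : ℕ} (hL : 1 ≤ L) (ha : 1 ≤ a) (h1 : 3 * L ^ a ≤ n) (h2 : n < L ^ (a + 1)) :
    pr L n = 1 / (2 * L : ℝ) ^ (a + 1) := by
  have h3 : Nat.log L n = a := Nat.log_eq_of_pow_le_of_lt_pow (by omega) h2
  have h4 : L ≤ L ^ a := by simpa using Nat.pow_le_pow_right hL ha
  unfold pr
  rw [if_neg (by rw [h3]; omega), h3]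

/-- the digit probabilities as points of the unit interval -/
def pI (d : ℕ) (hd : 3 ≤ d) (n : ℕ) : unitInterval :=
  ⟨pr (6 * d) n, pr_nonneg _ _, (pr_le (by omega) n).trans (by norm_num)⟩

lemma R_nonneg (d : ℕ) (p : ℕ → unitInterval) (s : ℕ) : 0 ≤ R d p s :=
  sum_nonneg fun _ _ => prod_nonneg fun i _ => mul_nonneg (p i).2.1 (sub_nonneg.2 (p i).2.2)

lemma R_lower {d : ℕ} (hd : 3 ≤ d) {a s : ℕ} (h1 : (6 * d) ^ (a + 2) ≤ s)
    (h2 : s < (6 * d) ^ (a + 3)) :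
    (((6 * d : ℕ) : ℝ) ^ (a + 1)) ^ 2 * ((1 / 4) ^ (d - 1) * (1 / (2 * (6 * d : ℕ) : ℝ) ^ (a + 3) / 2))
      ≤ R d (pI d hd) s := by
  set L := 6 * d with hL
  set A := L ^ (a + 1) with hA
  have hLA : L ≤ A := by
    calc L = L ^ 1 := (pow_one L).symm
      _ ≤ _ := Nat.pow_le_pow_right (by omega) (by omega)
  have hs : L * A ≤ s := by rw [hA, ← pow_succ']; exact h1
  set J := Finset.Icc 1 (d - 3) with hJ
  set C := ∑ x ∈ J, x with hC
  have hCle : C ≤ d * A := by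
    calc C ≤ ∑ _x ∈ J, A := sum_le_sum fun x hx => by
          simp only [hJ, mem_Icc] at hx; omega
      _ = (d - 3) * A := by simp [hJ]
      _ ≤ d * A := Nat.mul_le_mul_right _ (by omega)
  have hbig : C + 9 * A ≤ s := by
    have : d * A + 9 * A ≤ L * A := by rw [← add_mul]; exact Nat.mul_le_mul_right _ (by omega)
    omega
  set f : ℕ × ℕ → Finset ℕ := fun x => insert x.1 (insert x.2 (insert (s - C - x.1 - x.2) J))
    with hf
  set T := Finset.Ico A (2 * A) ×ˢ Finset.Ico (2 * A) (3 * A) with hT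
  have nm : ∀ x ∈ T, (x.1 ∉ insert x.2 (insert (s - C - x.1 - x.2) J)) ∧
      (x.2 ∉ insert (s - C - x.1 - x.2) J) ∧ (s - C - x.1 - x.2 ∉ J) := by
    intro x hx
    simp only [hT, hJ, mem_product, mem_Ico, mem_insert, mem_Icc] at hx ⊢
    omega
  have hinj : Set.InjOn f T := by
    intro x hx y hy hxy
    have e1 : x.1 ∈ f y := by rw [← hxy]; simp [hf]
    have e2 : x.2 ∈ f y := by rw [← hxy]; simp [hf]
    simp only [hT, hJ, hf, coe_product, Set.mem_prod, mem_coe, mem_Ico, mem_insert, mem_Icc]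
      at hx hy e1 e2
    ext <;> omega
  have hsub : T.image f ⊆ ((Finset.Icc 1 s).powersetCard d).filter (fun I => ∑ i ∈ I, i = s) := by
    intro I hI
    obtain ⟨x, hx, rfl⟩ := mem_image.1 hI
    obtain ⟨n1, n2, n3⟩ := nm x hx
    simp only [hT, mem_product, mem_Ico] at hx
    rw [mem_filter, mem_powersetCard]
    refine ⟨⟨?_, ?_⟩, ?_⟩
    · intro i hi
      simp only [hf, hJ, mem_insert, mem_Icc] at hi ⊢
      omega
    · simp only [hf]
      rw [card_insert_of_notMem n1, card_insert_of_notMem n2, card_insert_of_notMem n3, hJ,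
        Nat.card_Icc]
      omega
    · simp only [hf]
      rw [sum_insert n1, sum_insert n2, sum_insert n3, ← hC]
      omega
  have hterm : ∀ x ∈ T, (1 / 4 : ℝ) ^ (d - 1) * (1 / (2 * L : ℝ) ^ (a + 3) / 2)
      ≤ ∏ i ∈ f x, ((pI d hd i : ℝ) * (1 - (pI d hd i : ℝ))) := by
    intro x hx
    obtain ⟨n1, n2, n3⟩ := nm x hx
    simp only [hT, mem_product, mem_Ico] at hx
    simp only [hf, pI, ← hL]
    rw [prod_insert n1, prod_insert n2, prod_insert n3,
      pr_dense (a := a + 1) (by omega) (by omega) (by omega),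
      pr_dense (a := a + 1) (n := x.2) (by omega) (by omega) (by omega)]
    have e1 : ∏ i ∈ J, pr L i * (1 - pr L i) = (1 / 4) ^ (d - 3) := by
      rw [prod_congr rfl (g := fun _ => (1 / 4 : ℝ))]
      · simp [hJ]
      · intro i hi
        simp only [hJ, mem_Icc] at hi
        rw [pr_small (by omega)]
        norm_num
    rw [e1]
    have e2 : (1 / 4 : ℝ) ^ (d - 1) = (1 / 4) ^ (d - 3) * (1 / 16) := by
      have : d - 1 = d - 3 + 2 := by omega
      rw [this, pow_add]; norm_num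
    have g1 := pr_ge (L := L) (n := s - C - x.1 - x.2) (e := a + 3) (by omega)
      (Nat.log_lt_of_lt_pow (by omega) (by omega))
    have g2 := pr_le (L := L) (by omega) (s - C - x.1 - x.2)
    have g3 := pr_nonneg L (s - C - x.1 - x.2)
    have g4 : 1 / (2 * L : ℝ) ^ (a + 3) / 2
        ≤ pr L (s - C - x.1 - x.2) * (1 - pr L (s - C - x.1 - x.2)) := by nlinarith
    rw [e2]
    have g5 : (0 : ℝ) ≤ (1 / 4) ^ (d - 3) := by positivity
    nlinarith
  calc _ = ∑ _x ∈ T, (1 / 4 : ℝ) ^ (d - 1) * (1 / (2 * L : ℝ) ^ (a + 3) / 2) := by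
        rw [sum_const, nsmul_eq_mul, hT, card_product, Nat.card_Ico, Nat.card_Ico]
        congr 1
        have e1 : 2 * A - A = A := by omega
        have e2 : 3 * A - 2 * A = A := by omega
        rw [e1, e2, hA]
        push_cast
        ring
    _ ≤ ∑ x ∈ T, ∏ i ∈ f x, ((pI d hd i : ℝ) * (1 - (pI d hd i : ℝ))) := sum_le_sum hterm
    _ = ∑ I ∈ T.image f, ∏ i ∈ I, ((pI d hd i : ℝ) * (1 - (pI d hd i : ℝ))) :=
        (sum_image (f := fun I => ∏ i ∈ I, ((pI d hd i : ℝ) * (1 - (pI d hd i : ℝ)))) hinj).symm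
    _ ≤ _ := sum_le_sum_of_subset_of_nonneg hsub fun I _ _ =>
        prod_nonneg fun i _ => mul_nonneg (pI d hd i).2.1 (sub_nonneg.2 (pI d hd i).2.2)

lemma R_sq_lower {d : ℕ} (hd : 3 ≤ d) :
    ∃ κ : ℝ, 0 < κ ∧ ∀ s : ℕ, (6 * d) ^ 2 ≤ s → κ * s ≤ R d (pI d hd) s ^ 2 := by
  set L := 6 * d with hL
  have hL0 : (18 : ℝ) ≤ L := by exact_mod_cast (by omega : 18 ≤ L)
  refine ⟨((1 / 4) ^ (d - 1) / (16 * L)) ^ 2 / L ^ 3, by positivity, fun s hs => ?_⟩
  have hs0 : s ≠ 0 := by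
    have : 0 < L ^ 2 := by positivity
    omega
  have h2 : 2 ≤ Nat.log L s := Nat.le_log_of_pow_le (by omega) hs
  obtain ⟨a, ha⟩ : ∃ a, Nat.log L s = a + 2 := ⟨Nat.log L s - 2, by omega⟩
  have h3 : L ^ (a + 2) ≤ s := ha ▸ Nat.pow_log_le_self L hs0
  have h4 : s < L ^ (a + 3) := by
    have := Nat.lt_pow_succ_log_self (b := L) (by omega) s
    rwa [ha] at this
  have h5 := R_lower hd h3 h4
  rw [← hL] at h5
  have e : ((L : ℝ) ^ (a + 1)) ^ 2 * ((1 / 4) ^ (d - 1) * (1 / (2 * L : ℝ) ^ (a + 3) / 2))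
      = (1 / 4) ^ (d - 1) / (16 * L) * ((L : ℝ) / 2) ^ a := by
    rw [mul_pow, div_pow (L : ℝ)]
    field_simp
    ring
  rw [e] at h5
  have h6 : (s : ℝ) ≤ L ^ 3 * (((L : ℝ) / 2) ^ a) ^ 2 := by
    have h7 : (s : ℝ) ≤ (L : ℝ) ^ (a + 3) := by exact_mod_cast h4.le
    have h8 : (L : ℝ) ^ a ≤ (((L : ℝ) / 2) ^ a) ^ 2 := by
      rw [← pow_mul, mul_comm a 2, pow_mul]
      apply pow_le_pow_left₀ (by positivity)
      nlinarith
    calc (s : ℝ) ≤ L ^ 3 * (L : ℝ) ^ a := by rw [← pow_add, add_comm]; exact h7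
      _ ≤ _ := by gcongr
  calc _ ≤ ((1 / 4) ^ (d - 1) / (16 * L)) ^ 2 / L ^ 3 * (L ^ 3 * (((L : ℝ) / 2) ^ a) ^ 2) := by
        gcongr
    _ = ((1 / 4) ^ (d - 1) / (16 * L) * ((L : ℝ) / 2) ^ a) ^ 2 := by
        field_simp
    _ ≤ _ := by gcongr

lemma summable_R {d : ℕ} (hd : 3 ≤ d) {c : ℝ} (hc : 0 < c) :
    Summable fun s : ℕ => (s : ℝ) * Real.exp (-c * R d (pI d hd) s) := by
  obtain ⟨κ, hκ, H⟩ := R_sq_lower hd
  have hs : Summable fun s : ℕ => (720 / (c ^ 6 * κ ^ 3)) * (1 / (s : ℝ) ^ 2) :=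
    (Real.summable_one_div_nat_pow.2 (by norm_num)).mul_left _
  refine Summable.of_norm_bounded_eventually_nat hs ?_
  filter_upwards [eventually_ge_atTop ((6 * d) ^ 2), eventually_gt_atTop 0] with s h1 h2
  have hs0 : (0 : ℝ) < s := by exact_mod_cast h2
  have h3 := H s h1
  have h4 := Real.pow_div_factorial_le_exp _ (mul_nonneg hc.le (R_nonneg d (pI d hd) s)) 6
  have h5 : (κ * s) ^ 3 ≤ R d (pI d hd) s ^ 6 := by
    calc _ ≤ (R d (pI d hd) s ^ 2) ^ 3 := by gcongr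
      _ = _ := by ring
  have h6 : c ^ 6 * (κ * s) ^ 3 / 720 ≤ Real.exp (c * R d (pI d hd) s) := by
    refine le_trans ?_ h4
    rw [mul_pow c]
    have : ((Nat.factorial 6 : ℕ) : ℝ) = 720 := by norm_num [Nat.factorial]
    rw [this]
    gcongr
  rw [Real.norm_eq_abs, abs_of_nonneg (by positivity), neg_mul, Real.exp_neg]
  calc (s : ℝ) * (Real.exp (c * R d (pI d hd) s))⁻¹ ≤ s * (c ^ 6 * (κ * s) ^ 3 / 720)⁻¹ := by
        gcongr
    _ = _ := by field_simp

theorem main (d : ℕ) (hd : 3 ≤ d) :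
    ∃ p : ℕ → unitInterval,
      (∀ c : ℝ, 0 < c → Summable fun s : ℕ => (s : ℝ) * Real.exp (-c * R d p s)) ∧
      ∀ᵐ ω ∂(Measure.infinitePi fun n : ℕ => bernoulliMeasure (1 : ℝ) 0 (p n)),
        ¬ NormalInBase 2 ((∑' n : ℕ, ω (n + 1) / 2 ^ (n + 1)) ^ d) := by
  refine ⟨pI d hd, fun c hc => summable_R hd hc, ?_⟩
  set μ := Measure.infinitePi fun n : ℕ => bernoulliMeasure (1 : ℝ) 0 (pI d hd n) with hμ
  set L := 6 * d with hL
  have hlaw : ∀ n (S : Set ℝ), MeasurableSet S →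
      μ {ω | ω n ∈ S} = bernoulliMeasure (1 : ℝ) 0 (pI d hd n) S := fun n S hS =>
    (measurePreserving_eval_infinitePi _ n).measure_preimage hS.nullMeasurableSet
  have hbits : ∀ᵐ ω ∂μ, ∀ n, ω n = 0 ∨ ω n = 1 := by
    rw [ae_all_iff]
    intro n
    rw [ae_iff]
    have := hlaw n ({0, 1} : Set ℝ)ᶜ (by measurability)
    rw [bernoulliMeasure_apply_of_notMem_of_notMem _ (by measurability) (by simp) (by simp)] at this
    simpa using this
  set B : ℕ → Set (ℕ → ℝ) :=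
    fun a => ⋃ n ∈ Finset.Ico (3 * L ^ (a + 1)) (L ^ (a + 2)), {ω | ω n ∈ ({1} : Set ℝ)} with hB
  have hBle : ∀ a, μ (B a) ≤ ENNReal.ofReal ((1 / 2) ^ a) := by
    intro a
    refine (measure_biUnion_finset_le _ _).trans ?_
    have e : ∀ n ∈ Finset.Ico (3 * L ^ (a + 1)) (L ^ (a + 2)), μ {ω | ω n ∈ ({1} : Set ℝ)}
        = ENNReal.ofReal (1 / (2 * L : ℝ) ^ (a + 2)) := by
      intro n hn
      rw [mem_Ico] at hn
      rw [hlaw n _ (measurableSet_singleton _),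
        bernoulliMeasure_apply_of_mem_of_notMem _ (measurableSet_singleton _) (by simp) (by simp),
        ← pr_sparse (by omega) (by omega) hn.1 hn.2, ENNReal.ofReal, ENNReal.coe_inj]
      ext
      rw [Real.coe_toNNReal _ (pr_nonneg _ _)]
      rfl
    rw [sum_congr rfl e, sum_const, nsmul_eq_mul, ← ENNReal.ofReal_natCast,
      ← ENNReal.ofReal_mul (by positivity)]
    apply ENNReal.ofReal_le_ofReal
    have h1 : ((Finset.Ico (3 * L ^ (a + 1)) (L ^ (a + 2))).card : ℝ) ≤ (L : ℝ) ^ (a + 2) := by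
      rw [Nat.card_Ico]
      exact_mod_cast Nat.sub_le _ _
    have hL0 : (0 : ℝ) < L := by exact_mod_cast (by omega : 0 < L)
    calc _ ≤ (L : ℝ) ^ (a + 2) * (1 / (2 * L : ℝ) ^ (a + 2)) := by gcongr
      _ = (1 / 2) ^ (a + 2) := by rw [mul_pow, div_pow, one_pow]; field_simp
      _ ≤ (1 / 2) ^ a := pow_le_pow_of_le_one (by norm_num) (by norm_num) (by omega)
  have hsum : ∑' a, μ (B a) ≠ ⊤ := by
    refine ne_top_of_le_ne_top ?_ (ENNReal.tsum_le_tsum hBle)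
    rw [← ENNReal.ofReal_tsum_of_nonneg (fun _ => by positivity) summable_geometric_two]
    exact ENNReal.ofReal_ne_top
  filter_upwards [hbits, ae_eventually_notMem hsum] with ω h01 hev
  apply not_normal_of_gaps (B := fun a => d * L ^ (a + 1))
  · refine tendsto_atTop_mono (fun a => ?_) tendsto_id
    have : a + 1 < L ^ (a + 1) := Nat.lt_pow_self (by omega)
    simp only [id]
    nlinarith
  · filter_upwards [hev] with a ha n h1 h2
    have hA : L ≤ L ^ (a + 1) := by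
      simpa using Nat.pow_le_pow_right (n := L) (by omega) (by omega : 1 ≤ a + 1)
    have hLA : L ^ (a + 2) = 6 * (d * L ^ (a + 1)) := by rw [pow_succ, hL]; ring
    have hdA : d * 2 ≤ d * L ^ (a + 1) := Nat.mul_le_mul_left _ (by omega)
    refine digit_zero h01 (K := 3 * L ^ (a + 1)) (M := L ^ (a + 2) - 1) ?_ (by nlinarith) (by omega)
    intro i hi1 hi2
    refine (h01 i).resolve_right fun h => ha ?_
    simp only [hB, Set.mem_iUnion]
    exact ⟨i, mem_Ico.2 ⟨by omega, by omega⟩, h⟩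

end

end Pool.Agent.P.MP_28bf3c_nt
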